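import Pool.Agent.Y163.TateC
import Pool.Agent.H447R3.SpDefs
import Pool.Agent.Y133.Half.HalfDefs

/-!
# The conjecture D up to a polynomial factor
-/

set_option linter.unusedVariables false
set_option linter.unusedSectionVars false

open CategoryTheory AlgebraicGeometry CategoryTheory.Limits

universe u v

namespace Pool.Agent.Q63.DP

open Pool.Agent.H914 Pool.Agent.H447 Pool.Agent.W534 VarClass Obj WeilCohomology Module
  Pool.Agent.Y163

variable {k : Type u} [Field k] {𝒱 : VarClass k} {ops : CycleOps 𝒱}
  {W : WeilCohomology.{u, v} ops}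

/-- For the middle codimension on the even powers of `X`, and so for all codimensions together, the
conjecture D holds up to a factor which grows at most polynomially: the dimension `algDim` of the
space spanned by the classes of all cycles on `sq X n = X ^ (2 n + 2)` is at most the dimension of
the whole cohomology, which is at most `(n + 2) ^ (b ^ 2)`, `b = dim H(X)`, times the rank of the
group of cycles of codimension `(n + 1) dim X` modulo numerical equivalence. -/
def PolynomiallyClose (W : WeilCohomology.{u, v} ops) (X : 𝒱.Obj) : Prop :=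
  ∀ n : ℕ, Y133.Half.algDim W (sq X n) ≤ finrank W.K (W.H (sq X n)) ∧
    finrank W.K (W.H (sq X n)) ≤
      (n + 2) ^ (finrank W.K (W.H X) ^ 2) * numRank ops (sq X n) ((n + 1) * X.dim)

theorem of_par [IsAlgClosed W.K] {X : 𝒱.Obj} (hX : par (W.isInternal X) ∈ KOp W X X 0) :
    PolynomiallyClose W X := by
  intro n
  refine ⟨Submodule.finrank_le _, ?_⟩
  have e := kappa W (pw X n) (pw X n)
  have h1 : finrank W.K (W.H (sq X n)) = finrank W.K (W.H (pw X n)) * finrank W.K (W.H (pw X n)) := by
    change finrank W.K (W.H ((pw X n).prod (pw X n))) = _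
    rw [← e.finrank_eq, finrank_tensorProduct]
  have h2 := mrank_growth hX n
  rw [h1, finrank_pw, numRank_sq (W := W), mul_comm ((n + 2) ^ _)]
  rw [← pow_mul] at h2
  refine le_trans (le_of_eq ?_) h2
  rw [← pow_add]
  congr 1
  ring

theorem par_of_sign {X : 𝒱.Obj} (hS : SignStd W X) : par (W.isInternal X) ∈ KOp W X X 0 := by
  obtain ⟨P, hP, hP'⟩ := hS
  have h1 : par (W.isInternal X) = (2 : W.K) • W.corr (W.cl _ P) - LinearMap.id := by
    apply gr_ext (W.isInternal X)
    intro j a ha
    rw [par, scal_apply _ _ ha, LinearMap.sub_apply, LinearMap.smul_apply, hP' j a ha,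
      LinearMap.id_apply]
    split_ifs with hj
    · rw [hj.neg_one_pow, one_smul, two_smul, add_sub_cancel_right]
    · rw [(Nat.not_even_iff_odd.1 hj).neg_one_pow, smul_zero, zero_sub, neg_one_smul]
  rw [h1]
  exact Submodule.sub_mem _ (Submodule.smul_mem _ _ (KOp.gen (by simp) hP)) (KOp.id X)

theorem of_sign [IsAlgClosed W.K] {X : 𝒱.Obj} (hX : SignStd W X) : PolynomiallyClose W X :=
  of_par (par_of_sign hX)

theorem of_frob [IsAlgClosed W.K] {p : ℕ} (hp : p.Prime) (Φ : FrobSystem W p) (σ : W.K →+* ℂ)
    {X : 𝒱.Obj} (hRH : RiemannHyp Φ σ X) : PolynomiallyClose W X :=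
  of_par (par_mem_of_RH Φ hp.one_lt σ hRH)

end Pool.Agent.Q63.DP
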